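import Mathlib

/-!
A nonempty convex set in a separable Hilbert space all of whose points are in the quasi-relative
interior but whose face relative interior is empty.
-/

namespace Pool.Agent.Results.MP_98aad6_an.LexCone

open Topology Filter

section Defs

variable {X : Type*} [AddCommGroup X] [Module ℝ X] [TopologicalSpace X]

/-- `F` is a face of `C`: a convex subset of `C` such that whenever a point of `F` lies in the open
segment between two points of `C`, both of these points belong to `F`. -/
def IsFace (C F : Set X) : Prop :=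
  F ⊆ C ∧ Convex ℝ F ∧ ∀ x ∈ F, ∀ y ∈ C, ∀ z ∈ C, x ∈ openSegment ℝ y z → y ∈ F ∧ z ∈ F

/-- The smallest face of `C` containing `x`: the intersection of all faces of `C` containing `x`. -/
def minFace (x : X) (C : Set X) : Set X := ⋂₀ {F | IsFace C F ∧ x ∈ F}

/-- The face relative interior of `C`. -/
def fri (C : Set X) : Set X := {x | x ∈ C ∧ C ⊆ closure (minFace x C)}

/-- The cone of all `α (y - x)` with `y ∈ C` and `α ≥ 0`. -/
def coneAt (C : Set X) (x : X) : Set X := {v | ∃ y ∈ C, ∃ α : ℝ, 0 ≤ α ∧ v = α • (y - x)}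

/-- The quasi-relative interior of `C`: the points `x` of `C` such that the closure of
`cone (C - x)` is a linear subspace. -/
def qri (C : Set X) : Set X :=
  {x | x ∈ C ∧ ∃ V : Submodule ℝ X, closure (coneAt C x) = (V : Set X)}

/-- `C` is a nonempty convex set, every point of `C` is in its quasi-relative interior, but its face
relative interior is empty. -/
def QriFullFriEmpty (C : Set X) : Prop :=
  C.Nonempty ∧ Convex ℝ C ∧ qri C = C ∧ fri C = ∅

end Defs

/-- The separable Hilbert space of square summable real sequences. -/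
abbrev E : Type := lp (fun _ : ℕ => ℝ) 2

/-- The lexicographic cone: the zero sequence and the finitely supported sequences whose last
nonzero coordinate is positive. -/
def lexCone : Set E := {x | x = 0 ∨ ∃ n, 0 < x n ∧ ∀ m, n < m → x m = 0}

theorem add_mem {x y : E} (hx : x ∈ lexCone) (hy : y ∈ lexCone) : x + y ∈ lexCone := by
  rcases hx with rfl | ⟨n, hn, hn'⟩
  · simpa using hy
  rcases hy with rfl | ⟨m, hm, hm'⟩
  · rw [add_zero]; exact Or.inr ⟨n, hn, hn'⟩
  right
  rcases lt_trichotomy n m with h | h | h
  · refine ⟨m, ?_, fun k hk => ?_⟩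
    · simp [hn' m h, hm]
    · simp [hn' k (h.trans hk), hm' k hk]
  · subst h
    refine ⟨n, ?_, fun k hk => ?_⟩
    · simpa using add_pos hn hm
    · simp [hn' k hk, hm' k hk]
  · refine ⟨n, ?_, fun k hk => ?_⟩
    · simp [hm' n h, hn]
    · simp [hm' k (h.trans hk), hn' k hk]

theorem smul_mem {x : E} (hx : x ∈ lexCone) {a : ℝ} (ha : 0 ≤ a) : a • x ∈ lexCone := by
  rcases ha.eq_or_lt with rfl | ha
  · left; simp
  rcases hx with rfl | ⟨n, hn, hn'⟩
  · left; simp
  right
  refine ⟨n, ?_, fun k hk => ?_⟩
  · simpa using mul_pos ha hn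
  · simp [hn' k hk]

theorem convex_lexCone : Convex ℝ lexCone := by
  intro x hx y hy a b ha hb _
  exact add_mem (smul_mem hx ha) (smul_mem hy hb)

theorem single_pos_mem (n : ℕ) {c : ℝ} (hc : 0 < c) :
    (lp.single 2 n c : E) ∈ lexCone := by
  right
  refine ⟨n, ?_, fun k hk => ?_⟩
  · simpa using hc
  · simp [lp.single_apply, hk.ne']

theorem closure_lexCone : closure lexCone = Set.univ := by
  apply Set.eq_univ_of_forall
  intro x
  have h1 : Tendsto (fun N => ∑ i ∈ Finset.range N, (lp.single 2 i (x i) : E)) atTop (𝓝 x) :=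
    (lp.hasSum_single (by norm_num) x).tendsto_sum_nat
  have h2 : Tendsto (fun N : ℕ => (lp.single 2 N (1 / ((N : ℝ) + 1)) : E)) atTop (𝓝 0) := by
    rw [tendsto_zero_iff_norm_tendsto_zero]
    have : (fun N : ℕ => ‖(lp.single 2 N (1 / ((N : ℝ) + 1)) : E)‖) =
        fun N : ℕ => 1 / ((N : ℝ) + 1) := by
      funext N
      rw [lp.norm_single (by norm_num)]
      rw [Real.norm_of_nonneg (by positivity)]
    rw [this]
    exact tendsto_one_div_add_atTop_nhds_zero_nat
  have h3 := h1.add h2
  rw [add_zero] at h3
  refine mem_closure_of_tendsto h3 (Eventually.of_forall fun N => ?_)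
  right
  refine ⟨N, ?_, fun k hk => ?_⟩
  · have h4 : (∑ i ∈ Finset.range N, (lp.single 2 i (x i) : E)) N = 0 := by
      rw [lp.coeFn_sum, Finset.sum_apply]
      apply Finset.sum_eq_zero
      intro i hi
      have : N ≠ i := by
        have := Finset.mem_range.1 hi
        omega
      simp [lp.single_apply, this]
    rw [lp.coeFn_add, Pi.add_apply, h4, zero_add]
    simp
    positivity
  · have h4 : (∑ i ∈ Finset.range N, (lp.single 2 i (x i) : E)) k = 0 := by
      rw [lp.coeFn_sum, Finset.sum_apply]
      apply Finset.sum_eq_zero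
      intro i hi
      have : k ≠ i := by
        have := Finset.mem_range.1 hi
        omega
      simp [lp.single_apply, this]
    rw [lp.coeFn_add, Pi.add_apply, h4, zero_add]
    simp [lp.single_apply, hk.ne']

theorem qri_lexCone : qri lexCone = lexCone := by
  ext x
  constructor
  · exact fun h => h.1
  · intro hx
    refine ⟨hx, ⊤, ?_⟩
    rw [Submodule.top_coe]
    apply Set.eq_univ_of_forall
    intro v
    have h1 : v + x ∈ closure lexCone := by rw [closure_lexCone]; trivial
    obtain ⟨u, hu, hlim⟩ := mem_closure_iff_seq_limit.1 h1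
    have h2 : Tendsto (fun n => u n - x) atTop (𝓝 v) := by
      have := hlim.sub_const x
      rwa [add_sub_cancel_right] at this
    exact mem_closure_of_tendsto h2 (Eventually.of_forall fun n => ⟨u n, hu n, 1, zero_le_one,
      (one_smul ℝ _).symm⟩)

/-- The vectors of the lexicographic cone supported on `{0, …, n}`. -/
def initialFace (n : ℕ) : Set E := {y | y ∈ lexCone ∧ ∀ m, n < m → y m = 0}

theorem initialFace_aux {n : ℕ} {x y z : E} (hx : ∀ m, n < m → x m = 0) (hy : y ∈ lexCone)
    (hz : z ∈ lexCone) {a b : ℝ} (ha : 0 < a) (hb : 0 < b) (hxyz : a • y + b • z = x) :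
    ∀ m, n < m → y m = 0 := by
  intro m hm
  by_contra hne
  have hcoord : ∀ k, a * y k + b * z k = x k := by
    intro k
    rw [← hxyz]; rfl
  rcases hy with rfl | ⟨k, hk, hk'⟩
  · simp at hne
  have hmk : m ≤ k := by
    by_contra hcon
    exact hne (hk' m (by omega))
  have hnk : n < k := lt_of_lt_of_le hm hmk
  rcases hz with rfl | ⟨l, hl, hl'⟩
  · have h := hcoord k
    rw [hx k hnk] at h
    simp at h
    rcases h with h | h
    · exact ha.ne' h
    · exact hk.ne' h
  rcases lt_trichotomy l k with h | h | h
  · have h1 := hcoord k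
    rw [hx k hnk, hl' k h] at h1
    have := mul_pos ha hk
    linarith
  · subst h
    have h1 := hcoord l
    rw [hx l hnk] at h1
    have := mul_pos ha hk
    have := mul_pos hb hl
    linarith
  · have h1 := hcoord l
    rw [hx l (hnk.trans h), hk' l h] at h1
    have := mul_pos hb hl
    linarith

theorem isFace_initialFace (n : ℕ) : IsFace lexCone (initialFace n) := by
  refine ⟨fun y hy => hy.1, ?_, ?_⟩
  · intro x hx y hy a b ha hb hab
    refine ⟨convex_lexCone hx.1 hy.1 ha hb hab, fun m hm => ?_⟩
    change a * x m + b * y m = 0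
    simp [hx.2 m hm, hy.2 m hm]
  · rintro x hx y hy z hz ⟨a, b, ha, hb, -, hxyz⟩
    refine ⟨⟨hy, initialFace_aux hx.2 hy hz ha hb hxyz⟩, ⟨hz, ?_⟩⟩
    exact initialFace_aux hx.2 hz hy hb ha (by rw [add_comm]; exact hxyz)

theorem exists_initialFace {x : E} (hx : x ∈ lexCone) : ∃ n, x ∈ initialFace n := by
  rcases id hx with rfl | ⟨n, -, hn'⟩
  · exact ⟨0, hx, fun m _ => by simp⟩
  · exact ⟨n, hx, hn'⟩

theorem fri_lexCone : fri lexCone = ∅ := by
  apply Set.eq_empty_of_forall_notMem
  rintro x ⟨hx, hsub⟩
  obtain ⟨n, hn⟩ := exists_initialFace hx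
  have h1 : minFace x lexCone ⊆ {y : E | y (n + 1) = 0} := by
    intro y hy
    have := hy (initialFace n) ⟨isFace_initialFace n, hn⟩
    exact this.2 (n + 1) (by omega)
  have h2 : IsClosed {y : E | y (n + 1) = 0} := by
    have hc : Continuous fun y : E => y (n + 1) := by
      have := (lp.evalCLM ℝ (fun _ : ℕ => ℝ) 2 (n + 1)).continuous
      exact this
    exact isClosed_eq hc continuous_const
  have h3 : (lp.single 2 (n + 1) (1 : ℝ) : E) ∈ closure (minFace x lexCone) :=
    hsub (single_pos_mem (n + 1) one_pos)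
  have h4 := closure_minimal h1 h2 h3
  simp at h4

/-- **There is a nonempty convex subset `C` of the separable Hilbert space `ℓ²` such that every
point of `C` belongs to the quasi-relative interior of `C`, while the face relative interior of `C`
is empty.** -/
theorem result : ∃ C : Set (lp (fun _ : ℕ => ℝ) 2), QriFullFriEmpty C :=
  ⟨lexCone, ⟨0, Or.inl rfl⟩, convex_lexCone, qri_lexCone, fri_lexCone⟩

end Pool.Agent.Results.MP_98aad6_an.LexCone
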